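import Mathlib

set_option autoImplicit false

namespace Pool.Agent.Results.MP_8f3806_al.MaximalGap

open Finset
open scoped commutatorElement

universe u v

variable {V : Type u} [Fintype V] [DecidableEq V]

/-- Membership in the closed neighbourhood `N[v]`. -/
def InN (Γ : SimpleGraph V) (v w : V) : Prop := w = v ∨ Γ.Adj v w

/-- `g^x = (g^{x_v})_v` for an integer vector `x`. -/
def vpow {G : Type v} [Group G] (g : G) (x : V → ℤ) : V → G := fun v => g ^ x v

open Classical in
/-- The indicator vector of the closed neighbourhood `N[v]`. -/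
noncomputable def ind (Γ : SimpleGraph V) (v : V) : V → ℤ := fun w => if InN Γ v w then 1 else 0

/-- `g^v = g^{1_{N[v]}}`. -/
noncomputable def gv {G : Type v} [Group G] (Γ : SimpleGraph V) (g : G) (v : V) : V → G :=
  vpow g (ind Γ v)

/-- The graph power `G^Γ`, a subgroup of `G^V`. -/
noncomputable def gpow (G : Type v) [Group G] (Γ : SimpleGraph V) : Subgroup (V → G) :=
  Subgroup.closure {f | ∃ (g : G) (v : V), f = gv Γ g v}

/-- The full direct power `[G,G]^n` of the commutator subgroup. -/
def commPow (V : Type u) (G : Type v) [Group G] : Subgroup (V → G) :=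
  Subgroup.pi Set.univ (fun _ => commutator G)

/-- `Γ` is `G`-RA. -/
def IsRA (G : Type v) [Group G] (Γ : SimpleGraph V) : Prop := commPow V G ≤ gpow G Γ

/-- `Comm_b(G, Γ)`. -/
noncomputable def commB (G : Type v) [Group G] (Γ : SimpleGraph V) : Subgroup (V → G) :=
  Subgroup.closure {f | ∃ (g h : G) (v w : V), f = ⁅gv Γ g v, gv Γ h w⁆}

open Classical in
/-- The RA matrix: rows indexed by pairs `(u, v)`, columns by `V`; the row of `(u, v)` is the
indicator vector of `N[u] ∩ N[v]`. -/
noncomputable def raMatrix (Γ : SimpleGraph V) : Matrix (V × V) V ℤ :=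
  fun p w => if InN Γ p.1 w ∧ InN Γ p.2 w then 1 else 0

/-- The integers `d 0, …, d (n-1)` are the diagonal entries of the Smith normal form of the
matrix `C` with columns indexed by `V` (`n = |V|`), zeros being included when the rank is below
`n`: they are non-negative, each divides the next one, and `P * C * Q` is the matrix with
diagonal `d` for some unimodular `P` and `Q` (with the rows enumerated by `e`). -/
def IsElemDiv (C : Matrix (V × V) V ℤ) (d : Fin (Fintype.card V) → ℤ) : Prop :=
  (∀ i, 0 ≤ d i) ∧ (∀ i j, i ≤ j → d i ∣ d j) ∧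
  ∃ (P : Matrix (V × V) (V × V) ℤ) (Q : Matrix V V ℤ)
    (a : Fin (Fintype.card V) → V × V) (b : Fin (Fintype.card V) → V),
    IsUnit P ∧ IsUnit Q ∧ Function.Injective a ∧ Function.Injective b ∧
    (∀ i, (P * C * Q) (a i) (b i) = d i) ∧
    (∀ r c, (¬ ∃ i, r = a i ∧ c = b i) → (P * C * Q) r c = 0)

/-- The number of nontrivial elementary divisors. -/
def numNontrivial {m : ℕ} (d : Fin m → ℤ) : ℕ := (univ.filter (fun i => d i ≠ 1)).card

/-- The statement asked in Q1 (as a universal positive answer). -/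
def Q1 : Prop :=
  ∀ (V : Type) [Fintype V] [DecidableEq V] (Γ : SimpleGraph V)
    (d : Fin (Fintype.card V) → ℤ), IsElemDiv (raMatrix Γ) d →
    ∃ (G : Type) (_ : Group G), Finite G ∧ (∃ x y : G, x * y ≠ y * x) ∧
      Nonempty (commB G Γ ≃* (Fin (Fintype.card V - numNontrivial d) → commutator G)) ∧
      IsRA G Γ

omit [Fintype V] [DecidableEq V] in
/-- If two vertices have the same closed neighbourhood, the coordinates agree on `G^Γ`. -/
lemma twin_coord {G : Type v} [Group G] (Γ : SimpleGraph V) {a b : V}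
    (hab : ∀ w, InN Γ a w ↔ InN Γ b w) (f : V → G) (hf : f ∈ gpow G Γ) : f a = f b := by
  have hsymm : ∀ x y, InN Γ x y ↔ InN Γ y x := by
    intro x y
    unfold InN
    rw [Γ.adj_comm, eq_comm]
  have hle : gpow G Γ ≤ ((Pi.evalMonoidHom (fun _ : V => G) a).eqLocus
      (Pi.evalMonoidHom (fun _ : V => G) b)) := by
    unfold gpow
    rw [Subgroup.closure_le]
    rintro _ ⟨g, v, rfl⟩
    show gv Γ g v a = gv Γ g v b
    unfold gv vpow ind
    have : InN Γ v a ↔ InN Γ v b := by rw [hsymm v a, hsymm v b]; exact hab v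
    by_cases h : InN Γ v a
    · rw [if_pos h, if_pos (this.1 h)]
    · rw [if_neg h, if_neg (fun h' => h (this.2 h'))]
  exact hle hf

/-- A graph with closed twins is `G`-RA for no nonabelian group `G`. -/
theorem not_RA (Γ : SimpleGraph V) {a b : V} (hne : a ≠ b) (hab : ∀ w, InN Γ a w ↔ InN Γ b w)
    (G : Type v) [Group G] (hG : ∃ x y : G, x * y ≠ y * x) : ¬ IsRA G Γ := by
  intro h
  obtain ⟨x, y, hxy⟩ := hG
  have hc : ⁅x, y⁆ ∈ commutator G :=
    Subgroup.commutator_mem_commutator (Subgroup.mem_top x) (Subgroup.mem_top y)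
  have hne1 : ⁅x, y⁆ ≠ 1 := by
    intro h1
    exact hxy (commutatorElement_eq_one_iff_mul_comm.1 h1)
  have hmem : Pi.mulSingle a ⁅x, y⁆ ∈ commPow V G := by
    unfold commPow
    rw [Subgroup.mem_pi]
    intro w _
    by_cases hw : w = a
    · subst hw; rw [Pi.mulSingle_eq_same]; exact hc
    · rw [Pi.mulSingle_eq_of_ne hw]; exact Subgroup.one_mem _
  have := twin_coord Γ hab _ (h hmem)
  rw [Pi.mulSingle_eq_same, Pi.mulSingle_eq_of_ne hne.symm] at this
  exact hne1 this

/-- The diagonal entries `1, 0` of the Smith normal form for the graph `K_2`. -/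
lemma elemDiv_K2 : IsElemDiv (raMatrix (⊤ : SimpleGraph (Fin 2)))
    (fun i => if (i : ℕ) = 0 then 1 else 0) := by
  classical
  have hC : raMatrix (⊤ : SimpleGraph (Fin 2)) = fun _ _ => 1 := by
    funext p w
    unfold raMatrix InN
    rw [if_pos]
    refine ⟨?_, ?_⟩
    · by_cases h : w = p.1
      · exact Or.inl h
      · exact Or.inr (fun h' => h h'.symm)
    · by_cases h : w = p.2
      · exact Or.inl h
      · exact Or.inr (fun h' => h h'.symm)
  refine ⟨fun i => ?_, fun i j hij => ?_, ?_⟩
  · show (0 : ℤ) ≤ (if (i : ℕ) = 0 then 1 else 0)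
    split_ifs <;> norm_num
  · have hij' : (i : ℕ) ≤ j := hij
    show (if (i : ℕ) = 0 then (1 : ℤ) else 0) ∣ (if (j : ℕ) = 0 then (1 : ℤ) else 0)
    split_ifs with h1 h2 h2
    · exact dvd_refl _
    · exact dvd_zero _
    · omega
    · exact dvd_refl _
  · rw [hC]
    clear hC
    refine ⟨fun r c => if r = c then 1 else if c = (0, 0) then -1 else 0,
      fun r c => if r = c then 1 else if r = 0 then -1 else 0,
      fun i => ((i : Fin 2), 0), fun i => (i : Fin 2), ?_, ?_, ?_, ?_, ?_, ?_⟩
    · refine IsUnit.of_mul_eq_one (fun r c => if r = c then 1 else if c = (0, 0) then 1 else 0) ?_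
      decide
    · refine IsUnit.of_mul_eq_one (fun r c => if r = c then 1 else if r = 0 then 1 else 0) ?_
      decide
    · intro i j h
      exact (Prod.mk.inj h).1
    · intro i j h
      exact h
    · decide
    · intro r c h
      have h2 : r ≠ (c, 0) := fun e => h ⟨c, e, rfl⟩
      clear h
      revert r c
      decide


/-! ### The affine groups -/

/-- The affine group `x ↦ a x + b` of a field. -/
@[ext] structure Aff (F : Type) [Field F] where
  /-- slope -/
  a : Fˣ
  /-- translation -/
  b : F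

namespace Aff

variable {F : Type} [Field F]

instance : Group (Aff F) where
  mul x y := ⟨x.a * y.a, x.a * y.b + x.b⟩
  one := ⟨1, 0⟩
  inv x := ⟨x.a⁻¹, -((x.a⁻¹ : Fˣ) * x.b)⟩
  mul_assoc x y z := by
    ext
    · show ((x.a * y.a * z.a : Fˣ) : F) = ((x.a * (y.a * z.a) : Fˣ) : F)
      rw [mul_assoc]
    · show ((x.a * y.a : Fˣ) : F) * z.b + (x.a * y.b + x.b) = x.a * (y.a * z.b + y.b) + x.b
      push_cast; ring
  one_mul x := by
    ext
    · show ((1 * x.a : Fˣ) : F) = x.a
      rw [one_mul]
    · show ((1 : Fˣ) : F) * x.b + 0 = x.b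
      push_cast; ring
  mul_one x := by
    ext
    · show ((x.a * 1 : Fˣ) : F) = x.a
      rw [mul_one]
    · show (x.a : F) * 0 + x.b = x.b
      ring
  inv_mul_cancel x := by
    ext
    · show ((x.a⁻¹ * x.a : Fˣ) : F) = ((1 : Fˣ) : F)
      rw [inv_mul_cancel]
    · show ((x.a⁻¹ : Fˣ) : F) * x.b + -((x.a⁻¹ : Fˣ) * x.b) = 0
      ring

@[simp] lemma mul_a (x y : Aff F) : (x * y).a = x.a * y.a := rfl
@[simp] lemma mul_b (x y : Aff F) : (x * y).b = x.a * y.b + x.b := rfl
@[simp] lemma one_a : (1 : Aff F).a = 1 := rfl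
@[simp] lemma one_b : (1 : Aff F).b = 0 := rfl
@[simp] lemma inv_a (x : Aff F) : (x⁻¹).a = x.a⁻¹ := rfl
@[simp] lemma inv_b (x : Aff F) : (x⁻¹).b = -((x.a⁻¹ : Fˣ) * x.b) := rfl

/-- The slope homomorphism. -/
def slope : Aff F →* Fˣ where
  toFun x := x.a
  map_one' := rfl
  map_mul' _ _ := rfl

/-- The translations. -/
def tr : Multiplicative F →* Aff F where
  toFun t := ⟨1, t.toAdd⟩
  map_one' := rfl
  map_mul' s t := by
    ext
    · show ((1 : Fˣ) : F) = ((1 * 1 : Fˣ) : F)
      rw [one_mul]
    · show (s * t).toAdd = ((1 : Fˣ) : F) * t.toAdd + s.toAdd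
      rw [toAdd_mul]; push_cast; ring

instance [Finite F] : Finite (Aff F) := by
  have : Function.Injective (fun x : Aff F => (x.a, x.b)) := by
    intro x y h
    have h1 := (Prod.mk.inj h).1
    have h2 := (Prod.mk.inj h).2
    ext
    · rw [h1]
    · exact h2
  exact Finite.of_injective _ this

lemma comm_a (x y : Aff F) : (⁅x, y⁆ : Aff F).a = 1 := by
  have : slope ⁅x, y⁆ = 1 := by
    rw [map_commutatorElement]
    exact commutatorElement_eq_one_iff_mul_comm.2 (mul_comm _ _)
  exact this

lemma comm_translation (z : Fˣ) (t : F) :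
    ⁅(⟨z, 0⟩ : Aff F), (⟨1, t⟩ : Aff F)⁆ = ⟨1, (z - 1) * t⟩ := by
  ext
  · rw [comm_a]
  · rw [commutatorElement_def]
    simp
    ring

lemma exists_comm {z : Fˣ} (hz : z ≠ 1) (t : F) : ∃ x y : Aff F, (⟨1, t⟩ : Aff F) = ⁅x, y⁆ := by
  have h1 : ((z : F) - 1) ≠ 0 := by
    intro h
    apply hz
    ext
    push_cast
    linear_combination h
  refine ⟨⟨z, 0⟩, ⟨1, t / (z - 1)⟩, ?_⟩
  rw [comm_translation]
  congr 1
  field_simp

lemma commutator_eq {z : Fˣ} (hz : z ≠ 1) : (tr : Multiplicative F →* Aff F).range =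
    commutator (Aff F) := by
  apply le_antisymm
  · rintro _ ⟨t, rfl⟩
    obtain ⟨x, y, h⟩ := exists_comm hz t.toAdd
    show (⟨1, t.toAdd⟩ : Aff F) ∈ _
    rw [h]
    exact Subgroup.commutator_mem_commutator (Subgroup.mem_top x) (Subgroup.mem_top y)
  · rw [commutator_def, Subgroup.commutator_le]
    intro x _ y _
    refine ⟨Multiplicative.ofAdd (⁅x, y⁆ : Aff F).b, ?_⟩
    ext
    · rw [comm_a]; rfl
    · rfl

lemma tr_injective : Function.Injective (tr : Multiplicative F →* Aff F) := by
  intro s t h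
  have : (tr s).b = (tr t).b := by rw [h]
  exact this

end Aff

/-! ### Ranks -/

section Rank

variable {F : Type} [Field F]

/-- The RA matrix over `F`. -/
noncomputable def rowF (F : Type) [Field F] (Γ : SimpleGraph V) : Matrix (V × V) V F :=
  (raMatrix Γ).map (Int.castRingHom F)

lemma rank_of_elemDiv (C : Matrix (V × V) V ℤ) (d : Fin (Fintype.card V) → ℤ)
    (h : IsElemDiv C d) (hF : ∀ i, ((d i : ℤ) : F) ≠ 0 ↔ d i = 1) :
    (C.map (Int.castRingHom F)).rank = Fintype.card V - numNontrivial d := by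
  classical
  obtain ⟨-, -, P, Q, a, b, hP, hQ, ha, hb, h1, h2⟩ := h
  have hP' : IsUnit (P.map (Int.castRingHom F)).det := by
    rw [← Matrix.isUnit_iff_isUnit_det]
    exact hP.map (Int.castRingHom F).mapMatrix
  have hQ' : IsUnit (Q.map (Int.castRingHom F)).det := by
    rw [← Matrix.isUnit_iff_isUnit_det]
    exact hQ.map (Int.castRingHom F).mapMatrix
  set D : Matrix (V × V) V F := (P * C * Q).map (Int.castRingHom F) with hD
  have e1 : D = P.map (Int.castRingHom F) * C.map (Int.castRingHom F) *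
      Q.map (Int.castRingHom F) := by
    rw [hD, Matrix.map_mul, Matrix.map_mul]
  have e2 : D.rank = (C.map (Int.castRingHom F)).rank := by
    rw [e1, Matrix.rank_mul_eq_left_of_isUnit_det _ _ hQ',
      Matrix.rank_mul_eq_right_of_isUnit_det _ _ hP']
  rw [← e2]
  have e3 : D.submatrix a b = Matrix.diagonal (fun i => ((d i : ℤ) : F)) := by
    ext i j
    rw [Matrix.submatrix_apply, hD, Matrix.map_apply]
    by_cases hij : i = j
    · subst hij
      rw [Matrix.diagonal_apply_eq, h1]
      rfl
    · rw [Matrix.diagonal_apply_ne _ hij, h2, map_zero]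
      rintro ⟨k, hk1, hk2⟩
      exact hij ((ha hk1).trans (hb hk2).symm)
  have e4 : (D.submatrix a b).rank = Fintype.card V - numNontrivial d := by
    rw [e3, Matrix.rank_diagonal, Fintype.card_subtype]
    unfold numNontrivial
    have h5 : (univ.filter (fun i => ((d i : ℤ) : F) ≠ 0)) = univ.filter (fun i => d i = 1) := by
      ext i
      simp only [mem_filter, mem_univ, true_and]
      exact hF i
    have h6 := Finset.card_filter_add_card_filter_not (s := (univ : Finset (Fin (Fintype.card V))))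
      (fun i => d i = 1)
    rw [Finset.card_univ, Fintype.card_fin] at h6
    rw [h5]
    have h7 : (univ.filter (fun i => d i ≠ 1)) = univ.filter (fun i => ¬ d i = 1) := rfl
    rw [h7]
    omega
  rw [← e4]
  apply le_antisymm
  · -- D factors through the diagonal matrix
    have e5 : D = (Matrix.of (fun r i => if r = a i then (1 : F) else 0)) * (D.submatrix a b) *
        (Matrix.of (fun i c => if c = b i then (1 : F) else 0)) := by
      ext r c
      rw [e3, Matrix.mul_apply]
      have : ∀ i, ((Matrix.of (fun r i => if r = a i then (1 : F) else 0) : Matrix (V × V) _ F) *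
          Matrix.diagonal (fun i => ((d i : ℤ) : F))) r i *
          (Matrix.of (fun i c => if c = b i then (1 : F) else 0) : Matrix _ V F) i c =
          if r = a i ∧ c = b i then ((d i : ℤ) : F) else 0 := by
        intro i
        rw [Matrix.mul_diagonal, Matrix.of_apply, Matrix.of_apply]
        by_cases h1 : r = a i <;> by_cases h2 : c = b i <;> simp [h1, h2]
      rw [Finset.sum_congr rfl (fun i _ => this i)]
      by_cases hex : ∃ i, r = a i ∧ c = b i
      · obtain ⟨i, hi⟩ := hex
        rw [Finset.sum_eq_single i]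
        · rw [if_pos hi, hi.1, hi.2, hD, Matrix.map_apply, h1]
          rfl
        · intro j _ hj
          rw [if_neg]
          rintro ⟨h3, -⟩
          exact hj (ha (h3.symm.trans hi.1))
        · intro h; exact absurd (mem_univ _) h
      · rw [hD, Matrix.map_apply, h2 r c hex, map_zero]
        symm
        apply Finset.sum_eq_zero
        intro i _
        rw [if_neg]
        exact fun h => hex ⟨i, h⟩
    calc D.rank = _ := by rw [← e5]
      _ ≤ _ := Matrix.rank_mul_le_left _ _
      _ ≤ _ := Matrix.rank_mul_le_right _ _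
  · exact Matrix.rank_submatrix_le _ _ _

end Rank

/-! ### `Comm_b` and the RA property for the affine groups -/

section AffPart

variable {F : Type} [Field F]

/-- The embedding of `F^V` in `Aff(F)^V`. -/
def tau (V : Type u) (F : Type) [Field F] : Multiplicative (V → F) →* (V → Aff F) where
  toFun f := fun v => ⟨1, f.toAdd v⟩
  map_one' := rfl
  map_mul' s t := by
    funext v
    ext
    · show ((1 : Fˣ) : F) = ((1 * 1 : Fˣ) : F)
      rw [one_mul]
    · show (s * t).toAdd v = ((1 : Fˣ) : F) * t.toAdd v + s.toAdd v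
      rw [toAdd_mul, Pi.add_apply]; push_cast; ring

omit [Fintype V] [DecidableEq V] in
lemma tau_injective : Function.Injective (tau V F) := by
  intro s t h
  have : ∀ v, (tau V F s v).b = (tau V F t v).b := by intro v; rw [h]
  exact funext this

omit [Fintype V] [DecidableEq V] in
lemma gv_apply {G : Type v} [Group G] (Γ : SimpleGraph V) (g : G) (v u : V) [Decidable (InN Γ v u)] :
    gv Γ g v u = if InN Γ v u then g else 1 := by
  unfold gv vpow ind
  by_cases h : InN Γ v u
  · rw [if_pos h, if_pos h, zpow_one]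
  · rw [if_neg h, if_neg h, zpow_zero]

lemma comm_gv {G : Type v} [Group G] (Γ : SimpleGraph V) (g h : G) (v w u : V)
    [Decidable (InN Γ v u ∧ InN Γ w u)] :
    (⁅gv Γ g v, gv Γ h w⁆ : V → G) u = if InN Γ v u ∧ InN Γ w u then ⁅g, h⁆ else 1 := by
  classical
  have : (⁅gv Γ g v, gv Γ h w⁆ : V → G) u = ⁅gv Γ g v u, gv Γ h w u⁆ := rfl
  rw [this, gv_apply, gv_apply]
  by_cases h1 : InN Γ v u <;> by_cases h2 : InN Γ w u <;> simp [h1, h2]

lemma rowF_apply (Γ : SimpleGraph V) (v w u : V) [Decidable (InN Γ v u ∧ InN Γ w u)] :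
    rowF F Γ (v, w) u = if InN Γ v u ∧ InN Γ w u then 1 else 0 := by
  have h1 : rowF F Γ (v, w) u = ((raMatrix Γ (v, w) u : ℤ) : F) := rfl
  have h2 : raMatrix Γ (v, w) u = if InN Γ v u ∧ InN Γ w u then 1 else 0 := by
    unfold raMatrix
    by_cases h : InN Γ v u ∧ InN Γ w u
    · rw [if_pos h, if_pos h]
    · rw [if_neg h, if_neg h]
  rw [h1, h2]
  by_cases h : InN Γ v u ∧ InN Γ w u
  · rw [if_pos h, if_pos h]; simp
  · rw [if_neg h, if_neg h]; simp

lemma comm_eq_tau (Γ : SimpleGraph V) (g h : Aff F) (v w : V) :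
    (⁅gv Γ g v, gv Γ h w⁆ : V → Aff F) =
      tau V F (Multiplicative.ofAdd ((⁅g, h⁆ : Aff F).b • (rowF F Γ (v, w)))) := by
  classical
  funext u
  rw [comm_gv]
  show _ = (⟨1, (⁅g, h⁆ : Aff F).b • (rowF F Γ (v, w)) u⟩ : Aff F)
  rw [rowF_apply]
  by_cases h : InN Γ v u ∧ InN Γ w u
  · rw [if_pos h, if_pos h, smul_eq_mul, mul_one]
    ext
    · rw [Aff.comm_a]
    · rfl
  · rw [if_neg h, if_neg h, smul_zero]
    rfl

/-- The row space over `F`. -/
noncomputable def rowSpace (F : Type) [Field F] (Γ : SimpleGraph V) : Submodule F (V → F) :=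
  Submodule.span F (Set.range (rowF F Γ).row)

lemma tau_mem_commB {z : Fˣ} (hz : z ≠ 1) (Γ : SimpleGraph V) (f : V → F)
    (hf : f ∈ rowSpace F Γ) : ∀ c : F, tau V F (Multiplicative.ofAdd (c • f)) ∈ commB (Aff F) Γ := by
  unfold rowSpace at hf
  induction hf using Submodule.span_induction with
  | mem x hx =>
    obtain ⟨⟨v, w⟩, rfl⟩ := hx
    intro c
    obtain ⟨g, h, hgh⟩ := Aff.exists_comm hz c
    have hb : (⁅g, h⁆ : Aff F).b = c := by rw [← hgh]
    have := comm_eq_tau Γ g h v w
    rw [hb] at this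
    refine Subgroup.subset_closure ⟨g, h, v, w, ?_⟩
    exact this.symm
  | zero =>
    intro c
    rw [smul_zero, ofAdd_zero, map_one]
    exact Subgroup.one_mem _
  | add x y _ _ hx hy =>
    intro c
    rw [smul_add, ofAdd_add, map_mul]
    exact Subgroup.mul_mem _ (hx c) (hy c)
  | smul a x _ hx =>
    intro c
    rw [smul_smul]
    exact hx _

lemma commB_mem (Γ : SimpleGraph V) {f : V → Aff F} (hf : f ∈ commB (Aff F) Γ) :
    ∃ s ∈ rowSpace F Γ, tau V F (Multiplicative.ofAdd s) = f := by
  unfold commB at hf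
  induction hf using Subgroup.closure_induction with
  | mem x hx =>
    obtain ⟨g, h, v, w, rfl⟩ := hx
    refine ⟨(⁅g, h⁆ : Aff F).b • (rowF F Γ (v, w)), ?_, (comm_eq_tau Γ g h v w).symm⟩
    exact Submodule.smul_mem _ _ (Submodule.subset_span ⟨(v, w), rfl⟩)
  | one => exact ⟨0, Submodule.zero_mem _, by rw [ofAdd_zero, map_one]⟩
  | mul x y _ _ hx hy =>
    obtain ⟨s, hs, rfl⟩ := hx
    obtain ⟨t, ht, rfl⟩ := hy
    exact ⟨s + t, Submodule.add_mem _ hs ht, by rw [ofAdd_add, map_mul]⟩
  | inv x _ hx =>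
    obtain ⟨s, hs, rfl⟩ := hx
    exact ⟨-s, Submodule.neg_mem _ hs, by rw [ofAdd_neg, map_inv]⟩

/-- `Comm_b(Aff F, Γ) ≅ [Aff F, Aff F]^r` with `r` the rank over `F` of the RA matrix. -/
lemma commB_equiv {z : Fˣ} (hz : z ≠ 1) (Γ : SimpleGraph V) (r : ℕ) (hr : (rowF F Γ).rank = r) :
    Nonempty (commB (Aff F) Γ ≃* (Fin r → commutator (Aff F))) := by
  have hfr : Module.finrank F (rowSpace F Γ) = r := by
    rw [← hr, Matrix.rank_eq_finrank_span_row]; rfl
  have hfr2 : Module.finrank F (Fin r → F) = Module.finrank F (rowSpace F Γ) := by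
    rw [hfr, Module.finrank_fin_fun]
  obtain ⟨e⟩ := FiniteDimensional.nonempty_linearEquiv_of_finrank_eq hfr2
  -- the parametrisation of `Comm_b`
  let φ : Multiplicative (Fin r → F) →* (V → Aff F) :=
    (tau V F).comp (AddMonoidHom.toMultiplicative
      (((rowSpace F Γ).subtype.comp e.toLinearMap).toAddMonoidHom))
  have hφ : Function.Injective φ := by
    intro s t h
    have h1 := tau_injective h
    have h2 : ((e s.toAdd : rowSpace F Γ) : V → F) = (e t.toAdd : rowSpace F Γ) := h1
    exact e.injective (Subtype.ext h2)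
  have hrange : φ.range = commB (Aff F) Γ := by
    apply le_antisymm
    · rintro _ ⟨s, rfl⟩
      have := tau_mem_commB hz Γ (e s.toAdd) (e s.toAdd).2 1
      rw [one_smul] at this
      exact this
    · intro f hf
      obtain ⟨s, hs, rfl⟩ := commB_mem Γ hf
      refine ⟨Multiplicative.ofAdd (e.symm ⟨s, hs⟩), ?_⟩
      show tau V F (Multiplicative.ofAdd ((e (e.symm ⟨s, hs⟩) : rowSpace F Γ) : V → F)) = _
      rw [LinearEquiv.apply_symm_apply]
  have E1 : Multiplicative (Fin r → F) ≃* commB (Aff F) Γ :=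
    (MonoidHom.ofInjective hφ).trans (MulEquiv.subgroupCongr hrange)
  have E2 : Multiplicative F ≃* commutator (Aff F) :=
    (MonoidHom.ofInjective Aff.tr_injective).trans (MulEquiv.subgroupCongr (Aff.commutator_eq hz))
  let E3 : (Fin r → Multiplicative F) ≃* Multiplicative (Fin r → F) :=
    { toFun := fun f => Multiplicative.ofAdd (fun i => (f i).toAdd)
      invFun := fun f i => Multiplicative.ofAdd (f.toAdd i)
      left_inv := fun _ => rfl
      right_inv := fun _ => rfl
      map_mul' := fun _ _ => rfl }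
  exact ⟨E1.symm.trans (E3.symm.trans (MulEquiv.piCongrRight (fun _ => E2)))⟩

lemma tau_mem_gpow_mul {z : Fˣ} (hz : z ≠ 1) (Γ : SimpleGraph V) (w : V) (f : V → F)
    (hf : ∀ c : F, tau V F (Multiplicative.ofAdd (c • f)) ∈ gpow (Aff F) Γ) :
    ∀ c : F, tau V F (Multiplicative.ofAdd (c • (fun u => (ind Γ w u : F) * f u))) ∈
      gpow (Aff F) Γ := by
  classical
  intro c
  have hz1 : ((z : F) - 1) ≠ 0 := by
    intro h
    apply hz
    ext
    push_cast
    linear_combination h
  set c' := c / ((z : F) - 1) with hc'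
  have h1 := hf c'
  have hg : gv Γ (⟨z, 0⟩ : Aff F) w ∈ gpow (Aff F) Γ := Subgroup.subset_closure ⟨_, _, rfl⟩
  have h2 : gv Γ (⟨z, 0⟩ : Aff F) w * tau V F (Multiplicative.ofAdd (c' • f)) *
      (gv Γ (⟨z, 0⟩ : Aff F) w)⁻¹ * (tau V F (Multiplicative.ofAdd (c' • f)))⁻¹ ∈ gpow (Aff F) Γ :=
    Subgroup.mul_mem _ (Subgroup.mul_mem _ (Subgroup.mul_mem _ hg h1) (Subgroup.inv_mem _ hg))
      (Subgroup.inv_mem _ h1)
  convert h2 using 1
  funext u
  have e1 : (tau V F (Multiplicative.ofAdd (c' • f))) u = (⟨1, c' * f u⟩ : Aff F) := rfl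
  have e2 : (tau V F (Multiplicative.ofAdd (c • (fun u => (ind Γ w u : F) * f u)))) u =
      (⟨1, c * ((ind Γ w u : F) * f u)⟩ : Aff F) := rfl
  rw [Pi.mul_apply, Pi.mul_apply, Pi.mul_apply, Pi.inv_apply, Pi.inv_apply, e1, e2, gv_apply]
  unfold ind
  by_cases h : InN Γ w u
  · rw [if_pos h, if_pos h]
    ext
    · simp
    · simp
      rw [hc']
      field_simp
      ring
  · rw [if_neg h, if_neg h]
    ext
    · simp
    · simp

lemma RA_of_twinfree {z : Fˣ} (hz : z ≠ 1) (Γ : SimpleGraph V)
    (htf : ∀ a b, (∀ w, InN Γ a w ↔ InN Γ b w) → a = b) : IsRA (Aff F) Γ := by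
  classical
  -- the functions all of whose multiples are in `G^Γ`
  let M : Submodule F (V → F) :=
    { carrier := {f | ∀ c : F, tau V F (Multiplicative.ofAdd (c • f)) ∈ gpow (Aff F) Γ}
      add_mem' := by
        intro f g hf hg c
        rw [smul_add, ofAdd_add, map_mul]
        exact Subgroup.mul_mem _ (hf c) (hg c)
      zero_mem' := by
        intro c
        rw [smul_zero, ofAdd_zero, map_one]
        exact Subgroup.one_mem _
      smul_mem' := by
        intro a f hf c
        rw [smul_smul]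
        exact hf _ }
  have hMmul : ∀ w f, f ∈ M → (fun u => (ind Γ w u : F) * f u) ∈ M :=
    fun w f hf => tau_mem_gpow_mul hz Γ w f hf
  have hMsub : ∀ w f, f ∈ M → (fun u => (1 - (ind Γ w u : F)) * f u) ∈ M := by
    intro w f hf
    have := M.sub_mem hf (hMmul w f hf)
    convert this using 1
    funext u
    rw [Pi.sub_apply]
    ring
  have hM0 : ∀ v, (fun u => (ind Γ v u : F)) ∈ M := by
    intro v c
    have h1 : ∀ f ∈ rowSpace F Γ, f ∈ M := by
      intro f hf c
      have h2 := tau_mem_commB hz Γ f hf c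
      have h3 : commB (Aff F) Γ ≤ gpow (Aff F) Γ := by
        unfold commB
        rw [Subgroup.closure_le]
        rintro _ ⟨g, h, v, w, rfl⟩
        have hg : gv Γ g v ∈ gpow (Aff F) Γ := Subgroup.subset_closure ⟨_, _, rfl⟩
        have hh : gv Γ h w ∈ gpow (Aff F) Γ := Subgroup.subset_closure ⟨_, _, rfl⟩
        rw [commutatorElement_def]
        exact Subgroup.mul_mem _ (Subgroup.mul_mem _ (Subgroup.mul_mem _ hg hh)
          (Subgroup.inv_mem _ hg)) (Subgroup.inv_mem _ hh)
      exact h3 h2
    refine h1 _ ?_ c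
    refine Submodule.subset_span ⟨(v, v), ?_⟩
    funext u
    show rowF F Γ (v, v) u = _
    rw [rowF_apply]
    unfold ind
    by_cases h : InN Γ v u
    · rw [if_pos ⟨h, h⟩, if_pos h]; simp
    · rw [if_neg (fun h' => h h'.1), if_neg h]; simp
  -- separation by products
  have hsep : ∀ (a : V) (S : Finset V), a ∉ S → ∃ f ∈ M, f a = 1 ∧ ∀ u ∈ S, f u = 0 := by
    intro a S
    induction S using Finset.induction_on with
    | empty =>
      intro _
      refine ⟨_, hM0 a, ?_, by simp⟩
      have : InN Γ a a := Or.inl rfl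
      unfold ind
      rw [if_pos this]; simp
    | insert b S hb ih =>
      intro ha
      obtain ⟨f, hf, hfa, hfS⟩ := ih (fun h => ha (mem_insert_of_mem h))
      have hab : a ≠ b := fun h => ha (h ▸ mem_insert_self _ _)
      have hw : ∃ w, ¬ (InN Γ a w ↔ InN Γ b w) := by
        by_contra hcon
        push Not at hcon
        exact hab (htf a b hcon)
      obtain ⟨w, hw⟩ := hw
      have hsymm : ∀ x y, InN Γ x y ↔ InN Γ y x := by
        intro x y
        unfold InN
        rw [Γ.adj_comm, eq_comm]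
      rw [hsymm a w, hsymm b w] at hw
      by_cases h1 : InN Γ w a
      · have h2 : ¬ InN Γ w b := fun h2 => hw ⟨fun _ => h2, fun _ => h1⟩
        refine ⟨_, hMmul w f hf, ?_, ?_⟩
        · show (ind Γ w a : F) * f a = 1
          unfold ind
          rw [if_pos h1, hfa]; simp
        · intro u hu
          show (ind Γ w u : F) * f u = 0
          rcases mem_insert.1 hu with rfl | hu
          · unfold ind
            rw [if_neg h2]; simp
          · rw [hfS u hu, mul_zero]
      · have h2 : InN Γ w b := by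
          by_contra h2
          exact hw ⟨fun h => absurd h h1, fun h => absurd h h2⟩
        refine ⟨_, hMsub w f hf, ?_, ?_⟩
        · show (1 - (ind Γ w a : F)) * f a = 1
          unfold ind
          rw [if_neg h1, hfa]; simp
        · intro u hu
          show (1 - (ind Γ w u : F)) * f u = 0
          rcases mem_insert.1 hu with rfl | hu
          · unfold ind
            rw [if_pos h2]; simp
          · rw [hfS u hu, mul_zero]
  have hdelta : ∀ a, (Pi.single a (1 : F) : V → F) ∈ M := by
    intro a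
    obtain ⟨f, hf, hfa, hfS⟩ := hsep a (univ.erase a) (by simp)
    convert hf using 1
    funext u
    by_cases hu : u = a
    · subst hu; rw [Pi.single_eq_same, hfa]
    · rw [Pi.single_eq_of_ne hu, hfS u (by simp [hu])]
  have htop : ∀ f : V → F, f ∈ M := by
    intro f
    have : f = ∑ a, f a • (Pi.single a (1 : F) : V → F) := by
      funext u
      rw [Finset.sum_apply, Finset.sum_eq_single u]
      · rw [Pi.smul_apply, Pi.single_eq_same, smul_eq_mul, mul_one]
      · intro b _ hb
        rw [Pi.smul_apply, Pi.single_eq_of_ne hb.symm, smul_zero]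
      · intro h; exact absurd (mem_univ _) h
    rw [this]
    exact M.sum_mem (fun a _ => M.smul_mem _ (hdelta a))
  intro f hf
  have hfa : ∀ u, (f u).a = 1 := by
    intro u
    unfold commPow at hf
    rw [Subgroup.mem_pi] at hf
    have := hf u (Set.mem_univ _)
    rw [← Aff.commutator_eq hz] at this
    obtain ⟨t, ht⟩ := this
    rw [← ht]
    rfl
  have := htop (fun u => (f u).b) 1
  rw [one_smul] at this
  convert this using 1
  funext u
  ext
  · rw [hfa u]; rfl
  · rfl

end AffPart


/-! ### The main result -/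

lemma exists_unit_ne_one (p : ℕ) [Fact p.Prime] : ∃ z : (GaloisField p 2)ˣ, z ≠ 1 := by
  by_contra hcon
  push Not at hcon
  have hsurj : Function.Surjective (fun b : Bool => if b then (1 : GaloisField p 2) else 0) := by
    intro x
    by_cases hx : x = 0
    · exact ⟨false, by simp [hx]⟩
    · refine ⟨true, ?_⟩
      have := hcon (Units.mk0 x hx)
      have h2 : x = 1 := by
        have := congrArg (fun u : (GaloisField p 2)ˣ => (u : GaloisField p 2)) this
        simpa using this
      simp [h2]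
  have h1 := Nat.card_le_card_of_surjective _ hsurj
  rw [GaloisField.card p 2 (by norm_num)] at h1
  have h2 : Nat.card Bool = 2 := by simp
  rw [h2] at h1
  have h3 := (Fact.out : p.Prime).two_le
  nlinarith

/-- There is a prime dividing every nontrivial elementary divisor. -/
lemma exists_prime {m : ℕ} (d : Fin m → ℤ) (hd : ∀ i j, i ≤ j → d i ∣ d j) (h0 : ∀ i, 0 ≤ d i) :
    ∃ p : ℕ, p.Prime ∧ ∀ i, d i ≠ 1 → (p : ℤ) ∣ d i := by
  classical
  by_cases hex : ∃ i, d i ≠ 1
  · obtain ⟨i, hi⟩ := hex
    set S := univ.filter (fun i => d i ≠ 1) with hS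
    have hne : S.Nonempty := ⟨i, by simp [hS, hi]⟩
    have hmin := Finset.min'_mem S hne
    set i0 := S.min' hne with hi0
    have h1 : d i0 ≠ 1 := by simpa [hS] using hmin
    have h2 : (d i0).natAbs ≠ 1 := by
      intro h
      have := h0 i0
      omega
    obtain ⟨p, hp, hpd⟩ := Nat.exists_prime_and_dvd h2
    refine ⟨p, hp, fun j hj => ?_⟩
    have h3 : i0 ≤ j := Finset.min'_le S j (by simp [hS, hj])
    exact (Int.natCast_dvd.2 hpd).trans (hd i0 j h3)
  · push Not at hex
    exact ⟨2, Nat.prime_two, fun i hi => absurd (hex i) hi⟩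

/-- Positive part: a graph without closed twins is `G`-RA with the maximal gap for a finite
nonabelian group `G`. -/
theorem exists_group (Γ : SimpleGraph V) (d : Fin (Fintype.card V) → ℤ)
    (hd : IsElemDiv (raMatrix Γ) d)
    (htf : ∀ a b, (∀ w, InN Γ a w ↔ InN Γ b w) → a = b) :
    ∃ (G : Type) (_ : Group G), Finite G ∧ (∃ x y : G, x * y ≠ y * x) ∧
      Nonempty (commB G Γ ≃* (Fin (Fintype.card V - numNontrivial d) → commutator G)) ∧
      IsRA G Γ := by
  obtain ⟨p, hp, hpd⟩ := exists_prime d hd.2.1 hd.1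
  haveI : Fact p.Prime := ⟨hp⟩
  obtain ⟨z, hz⟩ := exists_unit_ne_one p
  have hF : ∀ i, ((d i : ℤ) : GaloisField p 2) ≠ 0 ↔ d i = 1 := by
    intro i
    constructor
    · intro h
      by_contra hne
      exact h ((CharP.intCast_eq_zero_iff (GaloisField p 2) p (d i)).2 (hpd i hne))
    · intro h
      rw [h]
      simp
  refine ⟨Aff (GaloisField p 2), inferInstance, inferInstance, ?_, ?_, ?_⟩
  · refine ⟨⟨z, 0⟩, ⟨1, 1⟩, ?_⟩
    intro h
    have h1 := congrArg Aff.b h
    apply hz
    ext
    simpa using h1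
  · exact commB_equiv hz Γ _ (rank_of_elemDiv _ d hd hF)
  · exact RA_of_twinfree hz Γ htf

/-- **Result.** Let `Γ` be a finite graph whose RA matrix has the elementary divisors
`d 0 ∣ … ∣ d (n-1)`, exactly `k` of them nontrivial. There is a finite nonabelian group `G` with
`Comm_b(G, Γ) ≅ [G,G]^(n-k)` and `Γ` `G`-RA if and only if `Γ` has no two distinct vertices with
the same closed neighbourhood. If there are two such vertices, `Γ` is `G`-RA for no nonabelian
group, finite or not. In particular (for `Γ = K_2`) Q1 has a negative answer. -/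
theorem result :
    (∀ (V : Type u) [Fintype V] [DecidableEq V] (Γ : SimpleGraph V)
      (d : Fin (Fintype.card V) → ℤ), IsElemDiv (raMatrix Γ) d →
      ((∃ (G : Type) (_ : Group G), Finite G ∧ (∃ x y : G, x * y ≠ y * x) ∧
        Nonempty (commB G Γ ≃* (Fin (Fintype.card V - numNontrivial d) → commutator G)) ∧
        IsRA G Γ) ↔ ∀ a b : V, (∀ w, InN Γ a w ↔ InN Γ b w) → a = b)) ∧
    (∀ (V : Type u) [Fintype V] [DecidableEq V] (Γ : SimpleGraph V) (a b : V), a ≠ b →
      (∀ w, InN Γ a w ↔ InN Γ b w) → ∀ (G : Type v) [Group G], (∃ x y : G, x * y ≠ y * x) →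
      ¬ IsRA G Γ) ∧ ¬ Q1 := by
  refine ⟨fun V _ _ Γ d hd => ⟨?_, exists_group Γ d hd⟩,
    fun V _ _ Γ a b hne hab G _ hG => not_RA Γ hne hab G hG, fun hQ => ?_⟩
  · rintro ⟨G, _, -, hG, -, hRA⟩ a b hab
    by_contra hne
    exact not_RA Γ hne hab G hG hRA
  · obtain ⟨G, _, _, hG, -, hRA⟩ := hQ (Fin 2) ⊤ _ elemDiv_K2
    refine not_RA (⊤ : SimpleGraph (Fin 2)) (a := 0) (b := 1) (by decide) ?_ G hG hRA
    intro w
    unfold InN
    fin_cases w <;> simp


end Pool.Agent.Results.MP_8f3806_al.MaximalGap
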